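import Mathlib

/-!
Perfect images of para-Lindelöf spaces are para-Lindelöf.  More generally a closed continuous
image of a para-Lindelöf space is para-Lindelöf as soon as all fibres have Lindelöf boundary.
-/

set_option autoImplicit false

namespace Pool.Agent.Results.MP_6bd103_gt.PerfectImages

open Set Topology Filter

universe u v w

/-- A family of sets is locally countable if every point has a neighbourhood meeting only
countably many of its members. -/
def LocallyCountable {X : Type u} [TopologicalSpace X] (V : Set (Set X)) : Prop :=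
  ∀ x : X, ∃ N ∈ 𝓝 x, {v | v ∈ V ∧ (v ∩ N).Nonempty}.Countable

/-- A space is para-Lindelöf if every open cover has a locally countable open refinement
(which is again a cover). -/
def ParaLindelof (X : Type u) [TopologicalSpace X] : Prop :=
  ∀ U : Set (Set X), (∀ u ∈ U, IsOpen u) → ⋃₀ U = Set.univ →
    ∃ V : Set (Set X), (∀ v ∈ V, IsOpen v) ∧ ⋃₀ V = Set.univ ∧ (∀ v ∈ V, ∃ u ∈ U, v ⊆ u) ∧
      LocallyCountable V

/-- Local countability of an indexed family. -/
def LC {X : Type u} {ι : Type w} [TopologicalSpace X] (F : ι → Set X) : Prop :=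
  ∀ x : X, ∃ N ∈ 𝓝 x, {a | (F a ∩ N).Nonempty}.Countable

/-- In a para-Lindelöf space every locally countable family has a locally countable open
expansion. -/
lemma exists_expansion {X : Type u} {ι : Type w} [TopologicalSpace X] (hX : ParaLindelof X)
    (F : ι → Set X) (hF : LC F) :
    ∃ E : ι → Set X, (∀ a, IsOpen (E a)) ∧ (∀ a, F a ⊆ E a) ∧ LC E := by
  obtain ⟨G, hGo, hGc, hGr, hGl⟩ := hX {N | IsOpen N ∧ {a | (F a ∩ N).Nonempty}.Countable}
    (fun N hN => hN.1) (by
      apply Set.eq_univ_of_forall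
      intro x
      obtain ⟨N, hN, hc⟩ := hF x
      obtain ⟨O, hON, hO, hx⟩ := mem_nhds_iff.mp hN
      refine ⟨O, ⟨hO, hc.mono ?_⟩, hx⟩
      rintro a ⟨z, hz, hz'⟩
      exact ⟨z, hz, hON hz'⟩)
  refine ⟨fun a => ⋃₀ {g | g ∈ G ∧ (F a ∩ g).Nonempty}, fun a => ?_, fun a x hx => ?_,
    fun x => ?_⟩
  · exact isOpen_sUnion fun g hg => hGo g hg.1
  · have hx' : x ∈ ⋃₀ G := by rw [hGc]; trivial
    obtain ⟨g, hg, hxg⟩ := hx'
    exact ⟨g, ⟨hg, x, hx, hxg⟩, hxg⟩
  · obtain ⟨N, hN, hc⟩ := hGl x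
    refine ⟨N, hN, ?_⟩
    have h1 : {a | ((⋃₀ {g | g ∈ G ∧ (F a ∩ g).Nonempty}) ∩ N).Nonempty} ⊆
        ⋃ g ∈ {g | g ∈ G ∧ (g ∩ N).Nonempty}, {a | (F a ∩ g).Nonempty} := by
      rintro a ⟨z, ⟨g, ⟨hg, hag⟩, hzg⟩, hzN⟩
      exact Set.mem_biUnion (show g ∈ {g | g ∈ G ∧ (g ∩ N).Nonempty} from ⟨hg, z, hzg, hzN⟩) hag
    refine Set.Countable.mono h1 (hc.biUnion fun g hg => ?_)
    obtain ⟨u, hu, hgu⟩ := hGr g hg.1
    refine hu.2.mono ?_
    rintro a ⟨z, hz, hz'⟩
    exact ⟨z, hz, hgu hz'⟩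

section

variable {X : Type u} {Y : Type v} [TopologicalSpace X] [TopologicalSpace Y]

/-- Around a fibre with Lindelöf boundary a locally countable family of `X` is only met
countably often, up to the interior of the fibre. -/
lemma fibre_nhd {ι : Type w} {f : X → Y} (hcl : IsClosedMap f) (F : ι → Set X) (hF : LC F)
    (y : Y) (hy : IsLindelof (f ⁻¹' {y} \ interior (f ⁻¹' {y}))) :
    ∃ O : Set Y, IsOpen O ∧ y ∈ O ∧
      {a | ∃ x ∈ F a, f x ∈ O ∧ f x ≠ y}.Countable := by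
  choose N hN hc using hF
  choose M hMN hMo hxM using fun x => mem_nhds_iff.mp (hN x)
  obtain ⟨r, hr, hrc⟩ := hy.elim_countable_subcover (fun x : X => M x) hMo
    (fun x _ => Set.mem_iUnion.mpr ⟨x, hxM x⟩)
  let W₁ : Set X := ⋃ x ∈ r, M x
  have hW₁ : IsOpen W₁ := isOpen_biUnion fun x _ => hMo x
  let W : Set X := W₁ ∪ interior (f ⁻¹' {y})
  have hW : IsOpen W := hW₁.union isOpen_interior
  have hfW : f ⁻¹' {y} ⊆ W := by
    intro x hx
    by_cases hxi : x ∈ interior (f ⁻¹' {y})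
    · exact Or.inr hxi
    · exact Or.inl (hrc ⟨hx, hxi⟩)
  refine ⟨(f '' Wᶜ)ᶜ, (hcl _ hW.isClosed_compl).isOpen_compl, ?_, ?_⟩
  · rintro ⟨x, hx, hxy⟩
    exact hx (hfW hxy)
  · have h1 : {a | ∃ x ∈ F a, f x ∈ (f '' Wᶜ)ᶜ ∧ f x ≠ y} ⊆
        ⋃ x ∈ r, {a | (F a ∩ N x).Nonempty} := by
      rintro a ⟨x, hxa, hxO, hxy⟩
      have hxW : x ∈ W := by
        by_contra hcon
        exact hxO ⟨x, hcon, rfl⟩
      rcases hxW with hx1 | hx1
      · obtain ⟨z, hz, hxz⟩ := Set.mem_iUnion₂.mp hx1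
        exact Set.mem_biUnion hz ⟨x, hxa, hMN z hxz⟩
      · exact absurd (interior_subset hx1) hxy
    exact Set.Countable.mono h1 (hr.biUnion fun x _ => hc x)

/-- Closed continuous surjections all of whose fibres have Lindelöf boundary preserve
para-Lindelöfness. -/
theorem of_isClosedMap {f : X → Y} (hf : Continuous f) (hcl : IsClosedMap f)
    (hsurj : Function.Surjective f)
    (hfib : ∀ y, IsLindelof (f ⁻¹' {y} \ interior (f ⁻¹' {y})))
    (hX : ParaLindelof X) : ParaLindelof Y := by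
  intro U hUo hUc
  obtain ⟨V, hVo, hVc, hVr, hVl⟩ := hX {W | ∃ u ∈ U, W = f ⁻¹' u}
    (by rintro W ⟨u, hu, rfl⟩; exact (hUo u hu).preimage hf)
    (by
      apply Set.eq_univ_of_forall
      intro x
      have hx : f x ∈ ⋃₀ U := by rw [hUc]; trivial
      obtain ⟨u, hu, hxu⟩ := hx
      exact ⟨f ⁻¹' u, ⟨u, hu, rfl⟩, hxu⟩)
  have hVr' : ∀ v : V, ∃ u ∈ U, v.1 ⊆ f ⁻¹' u := by
    intro v
    obtain ⟨W, ⟨u, hu, rfl⟩, hvW⟩ := hVr v.1 v.2
    exact ⟨u, hu, hvW⟩
  choose u huU hvu using hVr'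
  choose s hs using hsurj
  have hvs : ∀ y, ∃ v : V, s y ∈ v.1 := by
    intro y
    have : s y ∈ ⋃₀ V := by rw [hVc]; trivial
    obtain ⟨v, hv, hsv⟩ := this
    exact ⟨⟨v, hv⟩, hsv⟩
  choose vv hvv using hvs
  -- the family of the members of `V` is locally countable as an indexed family
  have hVLC : LC (fun v : V => v.1) := by
    intro x
    obtain ⟨N, hN, hc⟩ := hVl x
    refine ⟨N, hN, ?_⟩
    have : Set.InjOn (fun v : V => v.1) {a : V | (a.1 ∩ N).Nonempty} :=
      fun a _ b _ h => Subtype.ext h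
    refine (Set.countable_of_injective_of_countable_image this (hc.mono ?_))
    rintro _ ⟨a, ha, rfl⟩
    exact ⟨a.2, ha⟩
  -- a partition of `Y`
  let P : V → Set Y := fun v => {y | vv y = v}
  have hPLC : LC P := by
    intro y
    obtain ⟨O, hO, hyO, hc⟩ := fibre_nhd hcl _ hVLC y (hfib y)
    refine ⟨O, hO.mem_nhds hyO, ?_⟩
    refine (hc.union (Set.countable_singleton (vv y))).mono ?_
    rintro v ⟨y', hy', hy'O⟩
    by_cases hyy : y' = y
    · right
      have : vv y' = v := hy'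
      rw [Set.mem_singleton_iff, ← this, hyy]
    · left
      have h1 : vv y' = v := hy'
      refine ⟨s y', ?_, ?_, ?_⟩
      · rw [← h1]; exact hvv y'
      · rw [hs y']; exact hy'O
      · rw [hs y']; exact hyy
  have hQLC : LC (fun v => f ⁻¹' (P v)) := by
    intro x
    obtain ⟨N, hN, hc⟩ := hPLC (f x)
    refine ⟨f ⁻¹' N, hf.continuousAt hN, hc.mono ?_⟩
    rintro v ⟨z, hz, hz'⟩
    exact ⟨f z, hz, hz'⟩
  obtain ⟨E, hEo, hPE, hEL⟩ := exists_expansion hX _ hQLC
  let G : V → Set Y := fun v => (f '' (E v)ᶜ)ᶜ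
  have hGo : ∀ v, IsOpen (G v) := fun v => (hcl _ (hEo v).isClosed_compl).isOpen_compl
  have hPG : ∀ v, P v ⊆ G v := by
    rintro v y hy ⟨x, hx, hxy⟩
    apply hx
    apply hPE v
    change f x ∈ P v
    rw [hxy]
    exact hy
  have hGE : ∀ v y, y ∈ G v → s y ∈ E v := by
    intro v y hy
    by_contra hcon
    exact hy ⟨s y, hcon, hs y⟩
  have hGLC : LC G := by
    intro y
    obtain ⟨O, hO, hyO, hc⟩ := fibre_nhd hcl _ hEL y (hfib y)
    obtain ⟨N, hN, hc'⟩ := hEL (s y)
    refine ⟨O, hO.mem_nhds hyO, ?_⟩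
    refine (hc.union hc').mono ?_
    rintro v ⟨y', hy', hy'O⟩
    by_cases hyy : y' = y
    · right
      rw [hyy] at hy'
      exact ⟨s y, hGE v y hy', mem_of_mem_nhds hN⟩
    · left
      refine ⟨s y', hGE v y' hy', ?_, ?_⟩
      · rw [hs y']; exact hy'O
      · rw [hs y']; exact hyy
  refine ⟨Set.range fun v => G v ∩ u v, ?_, ?_, ?_, ?_⟩
  · rintro _ ⟨v, rfl⟩
    exact (hGo v).inter (hUo _ (huU v))
  · apply Set.eq_univ_of_forall
    intro y
    refine ⟨_, ⟨vv y, rfl⟩, hPG (vv y) rfl, ?_⟩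
    have := hvu (vv y) (hvv y)
    have h2 : f (s y) ∈ u (vv y) := this
    rwa [hs y] at h2
  · rintro _ ⟨v, rfl⟩
    exact ⟨u v, huU v, Set.inter_subset_right⟩
  · intro y
    obtain ⟨N, hN, hc⟩ := hGLC y
    refine ⟨N, hN, ?_⟩
    have h1 : {v | v ∈ (Set.range fun v => G v ∩ u v) ∧ (v ∩ N).Nonempty} ⊆
        (fun v => G v ∩ u v) '' {a | (G a ∩ N).Nonempty} := by
      rintro _ ⟨⟨v, rfl⟩, z, hz, hzN⟩
      exact ⟨v, ⟨z, hz.1, hzN⟩, rfl⟩
    exact (hc.image _).mono h1

end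

/-- (A) Closed continuous surjections all of whose fibres `F` have a Lindelöf part `F \ int F`
(the boundary of `F` when points are closed) preserve para-Lindelöfness.
(B) In particular this holds when points of `Y` are closed and all fibres have Lindelöf boundary.
(C) In particular perfect surjections preserve para-Lindelöfness. -/
theorem result :
    (∀ (X : Type u) (Y : Type v) [TopologicalSpace X] [TopologicalSpace Y] (f : X → Y),
      Continuous f → IsClosedMap f → Function.Surjective f →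
      (∀ y, IsLindelof (f ⁻¹' {y} \ interior (f ⁻¹' {y}))) → ParaLindelof X → ParaLindelof Y) ∧
    (∀ (X : Type u) (Y : Type v) [TopologicalSpace X] [TopologicalSpace Y] [T1Space Y]
      (f : X → Y), Continuous f → IsClosedMap f → Function.Surjective f →
      (∀ y, IsLindelof (frontier (f ⁻¹' {y}))) → ParaLindelof X → ParaLindelof Y) ∧
    (∀ (X : Type u) (Y : Type v) [TopologicalSpace X] [TopologicalSpace Y] (f : X → Y),
      Continuous f → IsClosedMap f → Function.Surjective f →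
      (∀ y, IsCompact (f ⁻¹' {y})) → ParaLindelof X → ParaLindelof Y) := by
  refine ⟨fun X Y _ _ f hf hcl hs hfib hX => of_isClosedMap hf hcl hs hfib hX, ?_, ?_⟩
  · intro X Y _ _ _ f hf hcl hs hfib hX
    refine of_isClosedMap hf hcl hs (fun y => ?_) hX
    have h : IsClosed (f ⁻¹' {y}) := isClosed_singleton.preimage hf
    have h2 := hfib y
    rwa [h.frontier_eq] at h2
  · intro X Y _ _ f hf hcl hs hfib hX
    refine of_isClosedMap hf hcl hs (fun y => ?_) hX
    exact ((hfib y).diff isOpen_interior).isLindelof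

end Pool.Agent.Results.MP_6bd103_gt.PerfectImages
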